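import Pool.Agent.X37.PE.Seq

/-!
# The residue classes modulo large primes at which a term has a small prime factor
-/

set_option autoImplicit false

namespace Pool.Agent.X37.PE

open Finset

lemma dvd_lcmUpto (a Y : ℕ) (h1 : 1 ≤ a) (h2 : a ≤ Y) : a ∣ Nat.lcmUpto Y := by
  unfold Nat.lcmUpto
  exact Finset.dvd_lcm (f := id) (Finset.mem_Icc.2 ⟨h1, h2⟩)

lemma prime_dvd_lcmUpto (l Y : ℕ) (hl : l.Prime) (h : l ∣ Nat.lcmUpto Y) : l ≤ Y := by
  have h1 : Nat.lcmUpto Y ∣ Y.factorial := by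
    unfold Nat.lcmUpto
    apply Finset.lcm_dvd
    intro b hb
    rw [Finset.mem_Icc] at hb
    exact Nat.dvd_factorial hb.1 hb.2
  exact (Nat.Prime.dvd_factorial hl).1 (h.trans h1)

/-- splitting of an integer below `Y ^ 2` -/
lemma order_split (Y d : ℕ) (hd : 0 < d) (hdY : d < Y ^ 2) :
    d ∣ Nat.lcmUpto Y ^ 3 ∨ ∃ l : ℕ, l.Prime ∧ Y < l ∧ l ∣ d ∧ d ∣ Nat.lcmUpto Y ^ 3 * l := by
  have hY : 0 < Y := by
    rcases Nat.eq_zero_or_pos Y with h | h
    · rw [h] at hdY; simp at hdY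
    · exact h
  by_cases hex : ∃ l : ℕ, l.Prime ∧ Y < l ∧ l ∣ d
  · right
    obtain ⟨l, hl, hYl, hld⟩ := hex
    refine ⟨l, hl, hYl, hld, ?_⟩
    obtain ⟨e, rfl⟩ := hld
    have he : 1 ≤ e := by
      rcases Nat.eq_zero_or_pos e with h | h
      · rw [h, mul_zero] at hd; omega
      · exact h
    have heY : e ≤ Y := by
      by_contra h
      push Not at h
      have : Y ^ 2 < l * e := by
        calc Y ^ 2 = Y * Y := pow_two Y
          _ < l * e := Nat.mul_lt_mul'' hYl h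
      omega
    rw [mul_comm l e]
    apply Nat.mul_dvd_mul_right
    exact (dvd_lcmUpto e Y he heY).trans (dvd_pow_self _ (by norm_num))
  · left
    push Not at hex
    rw [Nat.dvd_iff_prime_pow_dvd_dvd]
    intro p k hp hpk
    rcases Nat.eq_zero_or_pos k with h | hk
    · rw [h, pow_zero]; exact one_dvd _
    have hpd : p ∣ d := (dvd_pow_self p (by omega)).trans hpk
    have hpY : p ≤ Y := by
      by_contra h
      exact hex p hp (by omega) hpd
    obtain ⟨a, ha⟩ : ∃ a : ℕ, a = Nat.log p Y := ⟨_, rfl⟩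
    have h1 : p ^ a ≤ Y := by rw [ha]; exact Nat.pow_log_le_self p (by omega)
    have h2 : Y < p ^ (a + 1) := by rw [ha]; exact Nat.lt_pow_succ_log_self hp.one_lt Y
    have h3 : p ^ k < p ^ (2 * a + 2) := by
      calc p ^ k ≤ d := Nat.le_of_dvd hd hpk
        _ < Y ^ 2 := hdY
        _ ≤ (p ^ (a + 1)) ^ 2 := Nat.pow_le_pow_left h2.le 2
        _ = p ^ (2 * a + 2) := by rw [← pow_mul]; congr 1; ring
    have h4 : k < 2 * a + 2 := (Nat.pow_lt_pow_iff_right hp.one_lt).1 h3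
    have h5 : p ^ k ∣ p ^ a * p ^ a * p := by
      have : p ^ a * p ^ a * p = p ^ (2 * a + 1) := by ring
      rw [this]
      exact pow_dvd_pow p (by omega)
    refine h5.trans ?_
    have e : Nat.lcmUpto Y ^ 3 = Nat.lcmUpto Y * Nat.lcmUpto Y * Nat.lcmUpto Y := by ring
    rw [e]
    have g1 : p ^ a ∣ Nat.lcmUpto Y := dvd_lcmUpto _ _ (Nat.one_le_pow _ _ hp.pos) h1
    have g2 : p ∣ Nat.lcmUpto Y := dvd_lcmUpto _ _ hp.pos hpY
    exact Nat.mul_dvd_mul (Nat.mul_dvd_mul g1 g1) g2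

/-- a square root of `2` modulo `q`, if there is one -/
noncomputable def sq (q : ℕ) : ZMod q := by
  classical
  exact if h : ∃ s : ZMod q, s * s = 2 then h.choose else 0

lemma sq_spec {q : ℕ} (h : ∃ s : ZMod q, s * s = 2) : sq q * sq q = 2 := by
  unfold sq
  rw [dif_pos h]
  exact h.choose_spec

/-- `17 + 12 √2` modulo `q` -/
noncomputable def al (q : ℕ) : ZMod q := 17 + 12 * sq q

/-- `17 - 12 √2` modulo `q` -/
noncomputable def be (q : ℕ) : ZMod q := 17 - 12 * sq q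

lemma al_be {q : ℕ} (h : sq q * sq q = 2) : al q * be q = 1 := by
  unfold al be
  linear_combination (-144) * h

lemma a_zmod {q : ℕ} (h : sq q * sq q = 2) (m : ℕ) : ((a m : ℕ) : ZMod q) = 2 * (al q ^ m + be q ^ m) + 5 := by
  have h' : sq q * sq q = ((2 : ℤ) : ZMod q) := by rw [h]; norm_num
  obtain ⟨φ, hφ⟩ : ∃ φ : ℤ√2 →+* ZMod q, φ = Zsqrtd.lift ⟨sq q, h'⟩ := ⟨_, rfl⟩
  have hA : φ A = al q := by
    rw [hφ]
    simp [A, al]
  have hB : φ B = be q := by
    rw [hφ]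
    simp [B, be]
    ring
  have h1 := congrArg φ (a_cast m)
  rw [map_add, map_mul, map_add, map_pow, map_pow, hA, hB, map_intCast, map_ofNat, map_ofNat] at h1
  simpa using h1

/-- the condition for `T = A ^ m` -/
def PP (q : ℕ) (T : ZMod q) : Prop := (2 * T + 1) * (T + 2) = 0

lemma PP_of {q : ℕ} {T T' : ZMod q} (hT : T * T' = 1) (h : 2 * (T + T') + 5 = 0) : PP q T := by
  unfold PP
  linear_combination T * h - 2 * hT

lemma PP_to {q : ℕ} {T T' : ZMod q} (hT : T * T' = 1) (h : PP q T) : 2 * (T + T') + 5 = 0 := by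
  unfold PP at h
  linear_combination T' * h - (2 * T + 5) * hT

lemma PP_add {q : ℕ} (h : sq q * sq q = 2) {m r : ℕ} (hd : q ∣ a (m + r)) : PP q (al q ^ m * al q ^ r) := by
  have h1 : ((a (m + r) : ℕ) : ZMod q) = 0 := (ZMod.natCast_eq_zero_iff _ _).2 hd
  rw [a_zmod h] at h1
  rw [← pow_add]
  refine PP_of (T' := be q ^ (m + r)) ?_ h1
  rw [← mul_pow, al_be h, one_pow]

lemma PP_sub {q : ℕ} (h : sq q * sq q = 2) {m r : ℕ} (hr : r ≤ m) (hd : q ∣ a (m - r)) :
    PP q (al q ^ m * be q ^ r) := by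
  have h1 : ((a (m - r) : ℕ) : ZMod q) = 0 := (ZMod.natCast_eq_zero_iff _ _).2 hd
  rw [a_zmod h] at h1
  have e : al q ^ m * be q ^ r = al q ^ (m - r) := by
    have e1 : al q ^ r * be q ^ r = 1 := by rw [← mul_pow, al_be h, one_pow]
    have e2 : al q ^ m = al q ^ (m - r) * al q ^ r := by rw [← pow_add]; congr 1; omega
    rw [e2, mul_assoc, e1, mul_one]
  rw [e]
  refine PP_of (T' := be q ^ (m - r)) ?_ h1
  rw [← mul_pow, al_be h, one_pow]

lemma dvd_of_PP {q : ℕ} (h : sq q * sq q = 2) {r : ℕ} (hP : PP q (al q ^ r)) : q ∣ a r := by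
  rw [← ZMod.natCast_eq_zero_iff, a_zmod h]
  exact PP_to (by rw [← mul_pow, al_be h, one_pow]) hP

lemma dvd_of_PP' {q : ℕ} (h : sq q * sq q = 2) {r : ℕ} (hP : PP q (be q ^ r)) : q ∣ a r := by
  rw [← ZMod.natCast_eq_zero_iff, a_zmod h, add_comm (al q ^ r)]
  exact PP_to (by rw [mul_comm, ← mul_pow, al_be h, one_pow]) hP

lemma ord_dvd {q : ℕ} (hq : q.Prime) (h : sq q * sq q = 2) : orderOf (al q) ∣ q - 1 := by
  have : Fact q.Prime := ⟨hq⟩
  have h0 : al q ≠ 0 := left_ne_zero_of_mul_eq_one (al_be h)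
  exact orderOf_dvd_iff_pow_eq_one.2 (ZMod.pow_card_sub_one_eq_one h0)

lemma card_Q (z l : ℕ) (hl : 0 < l) :
    ((range (z + 1)).filter (fun q => q.Prime ∧ l ∣ q - 1)).card ≤ z / l := by
  have h1 := Finset.card_le_card_of_injOn (s := (range (z + 1)).filter (fun q => q.Prime ∧ l ∣ q - 1))
    (t := Icc 1 (z / l)) (fun q => (q - 1) / l) (by
      intro q hq
      rw [Finset.mem_coe, Finset.mem_filter, Finset.mem_range] at hq
      rw [Finset.mem_coe, Finset.mem_Icc]
      have h2 := hq.2.1.two_le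
      constructor
      · rw [Nat.le_div_iff_mul_le hl, one_mul]
        exact Nat.le_of_dvd (by omega) hq.2.2
      · exact Nat.div_le_div_right (by omega)) (by
      intro q hq q' hq' h
      rw [Finset.mem_coe, Finset.mem_filter, Finset.mem_range] at hq hq'
      have e1 := Nat.div_mul_cancel hq.2.2
      have e2 := Nat.div_mul_cancel hq'.2.2
      simp only at h
      rw [h] at e1
      have g1 := hq.2.1.two_le
      have g2 := hq'.2.1.two_le
      omega)
  rw [Nat.card_Icc, Nat.add_sub_cancel] at h1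
  exact h1

lemma order_pow {q K l : ℕ} (hl : l.Prime) (hlK : ¬ l ∣ K) (h1 : l ∣ orderOf (al q)) (h2 : orderOf (al q) ∣ K * l) :
    orderOf (al q ^ K) = l := by
  have h3 : (al q ^ K) ^ l = 1 := by
    rw [← pow_mul]
    exact orderOf_dvd_iff_pow_eq_one.1 h2
  rcases (Nat.dvd_prime hl).1 (orderOf_dvd_of_pow_eq_one h3) with h | h
  · exfalso
    rw [orderOf_eq_one_iff] at h
    exact hlK (h1.trans (orderOf_dvd_of_pow_eq_one h))
  · exact h

open Classical in
lemma two_classes {q K l : ℕ} (hq : q.Prime) (hs : sq q * sq q = 2) (hl : l.Prime) (hlK : ¬ l ∣ K)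
    (h1 : l ∣ orderOf (al q)) (h2 : orderOf (al q) ∣ K * l) {t t' : ZMod q} (ht : t * t' = 1) :
    ((range l).filter (fun i => PP q (al q ^ (K * i) * t))).card ≤ 2 := by
  have : Fact q.Prime := ⟨hq⟩
  have ho := order_pow hl hlK h1 h2
  have hinj : ∀ i j : ℕ, i < l → j < l → al q ^ (K * i) = al q ^ (K * j) → i = j := by
    intro i j hi hj hij
    rw [pow_mul, pow_mul] at hij
    exact pow_injOn_Iio_orderOf (by simpa [ho] using hi) (by simpa [ho] using hj) hij
  have hq2 : (2 : ZMod q) ≠ 0 := by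
    intro h
    have h3 : ((2 : ℕ) : ZMod q) = 0 := by exact_mod_cast h
    rw [ZMod.natCast_eq_zero_iff] at h3
    have h4 := (Nat.prime_dvd_prime_iff_eq hq Nat.prime_two).1 h3
    subst h4
    have h5 := h1.trans (ord_dvd hq hs)
    exact hl.one_lt.ne' (Nat.dvd_one.1 h5)
  have hsub : (range l).filter (fun i => PP q (al q ^ (K * i) * t)) ⊆
      (range l).filter (fun i => 2 * al q ^ (K * i) = - t') ∪ (range l).filter (fun i => al q ^ (K * i) = - (2 * t')) := by
    intro i hi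
    rw [mem_filter] at hi
    rw [mem_union, mem_filter, mem_filter]
    have h3 := hi.2
    unfold PP at h3
    rcases mul_eq_zero.1 h3 with h4 | h4
    · left
      exact ⟨hi.1, by linear_combination t' * h4 - 2 * al q ^ (K * i) * ht⟩
    · right
      exact ⟨hi.1, by linear_combination t' * h4 - al q ^ (K * i) * ht⟩
  refine (card_le_card hsub).trans ((card_union_le _ _).trans ?_)
  have c1 : ((range l).filter (fun i => 2 * al q ^ (K * i) = - t')).card ≤ 1 := by
    rw [card_le_one]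
    intro i hi j hj
    rw [mem_filter, mem_range] at hi hj
    exact hinj i j hi.1 hj.1 (mul_left_cancel₀ hq2 (hi.2.trans hj.2.symm))
  have c2 : ((range l).filter (fun i => al q ^ (K * i) = - (2 * t'))).card ≤ 1 := by
    rw [card_le_one]
    intro i hi j hj
    rw [mem_filter, mem_range] at hi hj
    exact hinj i j hi.1 hj.1 (hi.2.trans hj.2.symm)
  omega

open Classical in
/-- the bad classes modulo `l` -/
noncomputable def bad (K R z l : ℕ) : Finset ℕ := (range l).filter (fun i => ∃ q, q.Prime ∧ q ≤ z ∧ sq q * sq q = 2 ∧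
  l ∣ orderOf (al q) ∧ orderOf (al q) ∣ K * l ∧
    ∃ r ≤ R, PP q (al q ^ (K * i) * al q ^ r) ∨ PP q (al q ^ (K * i) * be q ^ r))

lemma bad_lt {K R z l i : ℕ} (h : i ∈ bad K R z l) : i < l := by
  classical
  unfold bad at h
  exact mem_range.1 (mem_filter.1 h).1

lemma bad_card {K R z l : ℕ} (hl : l.Prime) (hlK : ¬ l ∣ K) : (bad K R z l).card ≤ (z / l) * ((R + 1) * 4) := by
  classical
  obtain ⟨Q, hQ⟩ : ∃ Q : Finset ℕ, Q = (range (z + 1)).filter (fun q => q.Prime ∧ sq q * sq q = 2 ∧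
    l ∣ orderOf (al q) ∧ orderOf (al q) ∣ K * l) := ⟨_, rfl⟩
  have hsub : bad K R z l ⊆ Q.biUnion (fun q => (range (R + 1)).biUnion (fun r =>
      (range l).filter (fun i => PP q (al q ^ (K * i) * al q ^ r)) ∪
      (range l).filter (fun i => PP q (al q ^ (K * i) * be q ^ r)))) := by
    intro i hi
    unfold bad at hi
    rw [mem_filter] at hi
    obtain ⟨hi1, q, g1, g2, g3, g4, g5, r, hr, g6⟩ := hi
    rw [mem_biUnion]
    refine ⟨q, ?_, ?_⟩
    · rw [hQ, mem_filter, mem_range]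
      exact ⟨by omega, g1, g3, g4, g5⟩
    · rw [mem_biUnion]
      refine ⟨r, mem_range.2 (by omega), ?_⟩
      rw [mem_union, mem_filter, mem_filter]
      rcases g6 with g6 | g6
      · exact Or.inl ⟨hi1, g6⟩
      · exact Or.inr ⟨hi1, g6⟩
  refine (card_le_card hsub).trans ?_
  have h1 : ∀ q ∈ Q, ((range (R + 1)).biUnion (fun r =>
      (range l).filter (fun i => PP q (al q ^ (K * i) * al q ^ r)) ∪
      (range l).filter (fun i => PP q (al q ^ (K * i) * be q ^ r)))).card ≤ (R + 1) * 4 := by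
    intro q hq
    rw [hQ, mem_filter] at hq
    obtain ⟨-, g1, g3, g4, g5⟩ := hq
    have h2 := card_biUnion_le_card_mul (range (R + 1)) (fun r =>
      (range l).filter (fun i => PP q (al q ^ (K * i) * al q ^ r)) ∪
      (range l).filter (fun i => PP q (al q ^ (K * i) * be q ^ r))) 4 (fun r _ => by
        refine (card_union_le _ _).trans ?_
        have c1 := two_classes g1 g3 hl hlK g4 g5 (t := al q ^ r) (t' := be q ^ r)
          (by rw [← mul_pow, al_be g3, one_pow])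
        have c2 := two_classes g1 g3 hl hlK g4 g5 (t := be q ^ r) (t' := al q ^ r)
          (by rw [mul_comm, ← mul_pow, al_be g3, one_pow])
        omega)
    rwa [card_range] at h2
  refine (card_biUnion_le_card_mul Q _ _ h1).trans ?_
  apply Nat.mul_le_mul_right
  refine le_trans (card_le_card ?_) (card_Q z l hl.pos)
  intro q hq
  rw [hQ, mem_filter] at hq
  rw [mem_filter]
  exact ⟨hq.1, hq.2.1, hq.2.2.2.1.trans (ord_dvd hq.2.1 hq.2.2.1)⟩

lemma bad_mod {K R z l j q r : ℕ} (hl : 0 < l) (h1 : q.Prime) (h2 : q ≤ z) (h3 : sq q * sq q = 2)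
    (h4 : l ∣ orderOf (al q)) (h5 : orderOf (al q) ∣ K * l) (hr : r ≤ R)
    (h6 : PP q (al q ^ (K * j) * al q ^ r) ∨ PP q (al q ^ (K * j) * be q ^ r)) : j % l ∈ bad K R z l := by
  classical
  unfold bad
  rw [mem_filter, mem_range]
  refine ⟨Nat.mod_lt _ hl, q, h1, h2, h3, h4, h5, r, hr, ?_⟩
  have e : al q ^ (K * j) = al q ^ (K * (j % l)) := by
    conv_lhs => rw [← Nat.div_add_mod j l]
    rw [mul_add, pow_add, ← mul_assoc, pow_mul, orderOf_dvd_iff_pow_eq_one.1 h5, one_pow, one_mul]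
  rwa [← e]

/-- **no small prime factors** -/
theorem no_small {R w z K F j : ℕ} (hz : z < w ^ 2) (hK : K = Nat.lcmUpto w ^ 3)
    (hF : (((3 * ∏ r ∈ range (R + 1), a r ^ 2 : ℕ) : ℤ) : ℤ√2) ∣ A ^ F - 1) (hFK : F ∣ K) (hRK : R ≤ K) (hj1 : 1 ≤ j)
    (hj : ∀ l ∈ (Ioc w z).filter Nat.Prime, j % l ∉ bad K R z l) {r : ℕ} (hr : r ≤ R) :
    a r ∣ a (K * j + r) ∧ a r ∣ a (K * j - r) ∧
      ∀ q : ℕ, q.Prime → q ∣ (a (K * j + r) / a r) * (a (K * j - r) / a r) → z < q := by
  obtain ⟨k, hk⟩ : ∃ k, K * j = F * k := (hFK.mul_right j)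
  obtain ⟨M, hM⟩ : ∃ M : ℕ, M = 3 * ∏ r ∈ range (R + 1), a r ^ 2 := ⟨_, rfl⟩
  rw [← hM] at hF
  have hrK : r ≤ K * j := hr.trans (hRK.trans (Nat.le_mul_of_pos_right _ hj1))
  have hMr : a r ^ 2 ∣ M := by
    rw [hM]
    exact (Finset.dvd_prod_of_mem (fun r => a r ^ 2) (mem_range.2 (by omega))).mul_left _
  have hM3 : 3 ∣ M := by rw [hM]; exact dvd_mul_right _ _
  have key : ∀ N : ℕ, (M : ℤ) ∣ (N : ℤ) - a r → ¬ 2 ∣ N →
      (∀ q : ℕ, q.Prime → q ≠ 2 → q ≠ 3 → q ∣ N → sq q * sq q = 2 ∧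
        (PP q (al q ^ (K * j) * al q ^ r) ∨ PP q (al q ^ (K * j) * be q ^ r))) →
      a r ∣ N ∧ ∀ q : ℕ, q.Prime → q ∣ N / a r → z < q := by
    intro N h1 h2 h3
    have h4 : ((a r ^ 2 : ℕ) : ℤ) ∣ (N : ℤ) - a r := (Int.natCast_dvd_natCast.2 hMr).trans h1
    push_cast at h4
    have h5 : a r ∣ N := by
      have h6 : (a r : ℤ) ∣ (N : ℤ) - a r := (Dvd.intro _ (pow_two _).symm).trans h4
      have h7 : (a r : ℤ) ∣ (N : ℤ) := by
        have := dvd_add h6 (dvd_refl (a r : ℤ))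
        simpa using this
      exact_mod_cast h7
    refine ⟨h5, ?_⟩
    obtain ⟨b, rfl⟩ := h5
    have har : 0 < a r := a_pos r
    rw [Nat.mul_div_cancel_left _ har]
    have h8 : (a r : ℤ) ∣ (b : ℤ) - 1 := by
      obtain ⟨c, hc⟩ := h4
      refine ⟨c, ?_⟩
      have har' : (a r : ℤ) ≠ 0 := by exact_mod_cast har.ne'
      apply mul_left_cancel₀ har'
      push_cast at hc
      linear_combination hc
    intro q hq hqb
    by_contra hqz
    push Not at hqz
    have hqa : ¬ q ∣ a r := by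
      intro h
      have h9 : (q : ℤ) ∣ (b : ℤ) - 1 := (Int.natCast_dvd_natCast.2 h).trans h8
      have h10 : (q : ℤ) ∣ (b : ℤ) := Int.natCast_dvd_natCast.2 hqb
      have h11 : (q : ℤ) ∣ 1 := by
        have := dvd_sub h10 h9
        simpa using this
      have h12 : q ∣ 1 := by exact_mod_cast h11
      exact hq.one_lt.ne' (Nat.dvd_one.1 h12)
    have hqN : q ∣ a r * b := hqb.mul_left _
    have hq2 : q ≠ 2 := by
      rintro rfl
      exact h2 hqN
    have hq3 : q ≠ 3 := by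
      rintro rfl
      apply hqa
      have h9 : (3 : ℤ) ∣ ((a r * b : ℕ) : ℤ) - a r := by
        have : ((3 : ℕ) : ℤ) ∣ (M : ℤ) := Int.natCast_dvd_natCast.2 hM3
        exact (by exact_mod_cast this : (3 : ℤ) ∣ (M : ℤ)).trans h1
      have h10 : (3 : ℤ) ∣ ((a r * b : ℕ) : ℤ) := by exact_mod_cast hqN
      have h11 : (3 : ℤ) ∣ (a r : ℤ) := by
        have := dvd_sub h10 h9
        simpa using this
      exact_mod_cast h11
    obtain ⟨hs, hP⟩ := h3 q hq hq2 hq3 hqN
    have ho := ord_dvd hq hs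
    have hq1 := hq.two_le
    have hopos : 0 < orderOf (al q) := Nat.pos_of_dvd_of_pos ho (by omega)
    have hole : orderOf (al q) ≤ q - 1 := Nat.le_of_dvd (by omega) ho
    rcases order_split w (orderOf (al q)) hopos (by omega) with h | ⟨l, hl, hwl, hlo, hol⟩
    · rw [← hK] at h
      have h9 : al q ^ (K * j) = 1 := orderOf_dvd_iff_pow_eq_one.1 (h.mul_right j)
      rw [h9, one_mul, one_mul] at hP
      rcases hP with hP | hP
      · exact hqa (dvd_of_PP hs hP)
      · exact hqa (dvd_of_PP' hs hP)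
    · rw [← hK] at hol
      have hle := Nat.le_of_dvd hopos hlo
      exact hj l (by rw [mem_filter, mem_Ioc]; exact ⟨⟨hwl, by omega⟩, hl⟩)
        (bad_mod hl.pos hq hqz hs hlo hol hr hP)
  obtain ⟨p1, p2⟩ := key (a (K * j + r)) (by rw [hk]; exact a_add hF k r) (a_odd _) (by
    intro q hq hq2 hq3 hqN
    have hs := sq_spec (exists_sqrt hq hq2 hq3 hqN)
    exact ⟨hs, Or.inl (PP_add hs hqN)⟩)
  obtain ⟨p3, p4⟩ := key (a (K * j - r)) (by
      rw [hk]
      exact a_sub hF k r (by rw [← hk]; exact hrK)) (a_odd _) (by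
    intro q hq hq2 hq3 hqN
    have hs := sq_spec (exists_sqrt hq hq2 hq3 hqN)
    exact ⟨hs, Or.inr (PP_sub hs hrK hqN)⟩)
  refine ⟨p1, p3, fun q hq hqd => ?_⟩
  rcases (Nat.Prime.dvd_mul hq).1 hqd with h | h
  · exact p2 q hq h
  · exact p4 q hq h

end Pool.Agent.X37.PE
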