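import Pool.Agent.X37.PE.Siv
import Pool.Agent.X9.SQ.Par

/-!
# Many terms `8 d ^ 2 + 1` with a cofactor without small prime factors
-/

set_option autoImplicit false

namespace Pool.Agent.X37.PE

open Finset Filter Pool.Agent.X9.SQ

lemma log_lcm (Y : ℕ) : Real.log ((Nat.lcmUpto Y ^ 3 : ℕ) : ℝ) ≤ 18 * Y := by
  push_cast
  rw [Real.log_pow, ← Chebyshev.psi_eq_log_lcmUpto]
  have h1 := Chebyshev.psi_le_const_mul_self (x := (Y : ℝ)) (by positivity)
  have h4 : Real.log 4 ≤ 2 := by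
    have : Real.log 4 = 2 * Real.log 2 := by
      rw [show (4 : ℝ) = 2 ^ 2 by norm_num, Real.log_pow]; norm_num
    rw [this]
    have := Real.log_two_lt_d9
    linarith
  have hY : (0 : ℝ) ≤ Y := Nat.cast_nonneg Y
  have h5 : (Real.log 4 + 4) * Y ≤ 6 * Y := mul_le_mul_of_nonneg_right (by linarith) hY
  push_cast
  linarith

/-- the good indices -/
def Good (R : ℕ) (B : ℝ) (m : ℕ) : Prop := R ≤ m ∧ ∀ r ≤ R, a r ∣ a (m + r) ∧ a r ∣ a (m - r) ∧
  ∀ q : ℕ, q.Prime → q ∣ (a (m + r) / a r) * (a (m - r) / a r) → B < q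

open Classical in
theorem main_small (R : ℕ) (ε : ℝ) (hε : 0 < ε) (hε1 : ε ≤ 1) : ∃ c : ℝ, 0 < c ∧ ∃ x₀ : ℕ, ∀ x : ℕ, x₀ ≤ x →
    (x : ℝ) ^ (1 - ε) ≤ (((Icc 1 x).filter (fun m => Good R (c * Real.log x ^ 2) m)).card : ℝ) := by
  obtain ⟨M, hM⟩ : ∃ M : ℕ, M = 3 * ∏ r ∈ range (R + 1), a r ^ 2 := ⟨_, rfl⟩
  have hMpos : 0 < M := by
    rw [hM]
    have : 0 < ∏ r ∈ range (R + 1), a r ^ 2 := Finset.prod_pos fun r _ => by
      have := a_pos r
      positivity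
    omega
  obtain ⟨F, hF0, hF⟩ := exists_period M hMpos
  rw [hM] at hF
  obtain ⟨c1, hc1⟩ : ∃ c1 : ℝ, c1 = ε / 200 := ⟨_, rfl⟩
  have hc1pos : 0 < c1 := by rw [hc1]; positivity
  have hc1le : c1 ≤ 1 / 200 := by rw [hc1]; linarith
  obtain ⟨c, hc⟩ : ∃ c : ℝ, c = c1 ^ 2 / (32 * (R + 1)) := ⟨_, rfl⟩
  have hcpos : 0 < c := by rw [hc]; positivity
  refine ⟨c, hcpos, ?_⟩
  have ev : ∀ᶠ y : ℝ in atTop, (F : ℝ) + R + 16 ≤ ⌊c1 * y⌋₊ ∧ c1 * y / 2 ≤ ⌊c1 * y⌋₊ ∧ 12 / ε ≤ y ∧ 10 ≤ y ∧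
      3 ≤ Real.log (c1 * y / 2) := by
    filter_upwards [ev_lin ((F : ℝ) + R + 17) c1 hc1pos, eventually_ge_atTop (12 / ε), eventually_ge_atTop (10 : ℝ),
      (Real.tendsto_log_atTop.comp (tendsto_id.const_mul_atTop (show 0 < c1 / 2 by positivity))).eventually_ge_atTop 3] with y g1 g2 g3 g4
    have g5 := Nat.lt_floor_add_one (c1 * y)
    have hF' : (0 : ℝ) ≤ F := Nat.cast_nonneg F
    have hR' : (0 : ℝ) ≤ R := Nat.cast_nonneg R
    refine ⟨by linarith, by linarith, g2, g3, ?_⟩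
    simp only [Function.comp, id] at g4
    rwa [show c1 * y / 2 = c1 / 2 * y by ring]
  have ev2 := (Real.tendsto_log_atTop.comp tendsto_natCast_atTop_atTop).eventually ev
  obtain ⟨x₀, hx₀⟩ := eventually_atTop.1 ev2
  refine ⟨max x₀ 1, ?_⟩
  intro x hx
  obtain ⟨g1, g2, g3, g4, g5⟩ := hx₀ x ((le_max_left _ _).trans hx)
  have hx1 : 1 ≤ x := (le_max_right _ _).trans hx
  simp only [Function.comp] at g1 g2 g3 g4 g5
  obtain ⟨y, hy⟩ : ∃ y : ℝ, y = Real.log x := ⟨_, rfl⟩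
  rw [← hy] at g1 g2 g3 g4 g5 ⊢
  obtain ⟨w, hw⟩ : ∃ w : ℕ, w = ⌊c1 * y⌋₊ := ⟨_, rfl⟩
  rw [← hw] at g1 g2
  obtain ⟨z, hz⟩ : ∃ z : ℕ, z = w ^ 2 / (8 * (R + 1)) := ⟨_, rfl⟩
  have hxr : (0 : ℝ) < x := by exact_mod_cast hx1
  have hy0 : 0 < y := by linarith
  have hwle : (w : ℝ) ≤ c1 * y := by rw [hw]; exact Nat.floor_le (by positivity)
  have hFw : F + R + 16 ≤ w := by exact_mod_cast g1
  have hwr : (16 : ℝ) ≤ w := by exact_mod_cast (by omega : 16 ≤ w)
  have hzw : 8 * (R + 1) * z ≤ w ^ 2 := by rw [hz]; exact Nat.mul_div_le _ _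
  have hz2 : w ^ 2 < 8 * (R + 1) * (z + 1) := by
    rw [hz]
    exact Nat.lt_mul_div_succ _ (by positivity)
  have hzw2 : z < w ^ 2 := by
    have h1 : z + z ≤ 8 * (R + 1) * z := by nlinarith [Nat.zero_le (R * z)]
    have h2 : 0 < w ^ 2 := by
      have : 0 < w := by omega
      positivity
    rcases Nat.eq_zero_or_pos z with h | h
    · rw [h]; exact h2
    · omega
  obtain ⟨K, hK⟩ : ∃ K : ℕ, K = Nat.lcmUpto w ^ 3 := ⟨_, rfl⟩
  have hKpos : 0 < K := by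
    rw [hK]
    exact pow_pos (Nat.pos_of_ne_zero (by
      unfold Nat.lcmUpto
      rw [Ne, Finset.lcm_eq_zero_iff]
      simp)) 3
  have hFK : F ∣ K := by
    rw [hK]
    exact (dvd_lcmUpto F w hF0 (by omega)).trans (dvd_pow_self _ (by norm_num))
  have hRK : R ≤ K := by
    have h1 : w ∣ K := by
      rw [hK]
      exact (dvd_lcmUpto w w (by omega) le_rfl).trans (dvd_pow_self _ (by norm_num))
    have := Nat.le_of_dvd hKpos h1
    omega
  obtain ⟨k, hk, hsurv⟩ := survivors R w z (by omega) hzw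
  rw [← hK] at hsurv
  have hs := hsurv (x / K)
  -- the sizes
  have hlogw : 3 ≤ Real.log w := g5.trans (Real.log_le_log (by positivity) g2)
  have hV : 12 * ((R : ℝ) + 1) * z / (w * Real.log w) ≤ w / 2 := by
    have h1 : (8 : ℝ) * (R + 1) * z ≤ (w : ℝ) ^ 2 := by exact_mod_cast hzw
    rw [div_le_iff₀ (by positivity)]
    have h2 : (w : ℝ) / 2 * (w * 3) ≤ w / 2 * (w * Real.log w) := by gcongr
    nlinarith
  have hV2 : 12 * ((R : ℝ) + 1) * z / (w * Real.log w) * Real.log w ≤ 3 / 2 * w := by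
    have h1 : (8 : ℝ) * (R + 1) * z ≤ (w : ℝ) ^ 2 := by exact_mod_cast hzw
    have e : 12 * ((R : ℝ) + 1) * z / (w * Real.log w) * Real.log w = 12 * ((R : ℝ) + 1) * z / w := by
      have : Real.log w ≠ 0 := by linarith
      field_simp
    rw [e, div_le_iff₀ (by linarith)]
    nlinarith
  have hz1 : (z : ℝ) + 1 ≤ (w : ℝ) ^ 2 := by exact_mod_cast hzw2
  have hE : ((z : ℝ) + 1) ^ (2 * k) ≤ Real.exp (60 * w) := by
    have h1 : ((z : ℝ) + 1) ^ (2 * k) = Real.exp ((2 * k : ℕ) * Real.log ((z : ℝ) + 1)) := by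
      rw [← Real.log_pow, Real.exp_log (by positivity)]
    rw [h1]
    apply Real.exp_le_exp.2
    have h2 : Real.log ((z : ℝ) + 1) ≤ 2 * Real.log w := by
      have := Real.log_le_log (by positivity) hz1
      rw [Real.log_pow] at this
      exact_mod_cast this
    have h3 : Real.log w ≤ w := (Real.log_le_sub_one_of_pos (by linarith)).trans (by linarith)
    have h4 : (0 : ℝ) ≤ k := Nat.cast_nonneg k
    calc ((2 * k : ℕ) : ℝ) * Real.log ((z : ℝ) + 1) ≤ ((2 * k : ℕ) : ℝ) * (2 * Real.log w) := by gcongr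
      _ = 4 * (k * Real.log w) := by push_cast; ring
      _ ≤ 4 * ((8 * (12 * (R + 1) * z / (w * Real.log w)) + 3) * Real.log w) := by gcongr
      _ = 32 * (12 * (R + 1) * z / (w * Real.log w) * Real.log w) + 12 * Real.log w := by ring
      _ ≤ 32 * (3 / 2 * w) + 12 * w := by gcongr
      _ = 60 * w := by ring
  have hKe : (K : ℝ) ≤ Real.exp (18 * w) := by
    have h1 := log_lcm w
    rw [← hK] at h1
    rw [← Real.exp_log (show (0 : ℝ) < K by exact_mod_cast hKpos)]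
    exact Real.exp_le_exp.2 h1
  have hJ : Real.exp (y - 18 * w) - 1 ≤ ((x / K : ℕ) : ℝ) := by
    have h1 : (x : ℝ) < K * ((x / K : ℕ) + 1) := by exact_mod_cast Nat.lt_mul_div_succ x hKpos
    have h2 : Real.exp (y - 18 * w) ≤ ((x / K : ℕ) : ℝ) + 1 := by
      rw [Real.exp_sub, hy, Real.exp_log hxr, div_le_iff₀ (Real.exp_pos _)]
      calc (x : ℝ) ≤ K * ((x / K : ℕ) + 1) := h1.le
        _ ≤ Real.exp (18 * w) * ((x / K : ℕ) + 1) := by gcongr
        _ = _ := by ring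
    linarith
  have hmain : Real.exp ((1 - ε) * y) ≤ ((x / K : ℕ) : ℝ) * (Real.exp (-(2 * (12 * (R + 1) * z / (w * Real.log w)))) / 2) -
      ((z : ℝ) + 1) ^ (2 * k) := by
    have h1 : Real.exp (-w) ≤ Real.exp (-(2 * (12 * (R + 1) * z / (w * Real.log w)))) := by
      apply Real.exp_le_exp.2
      linarith
    have hwy : (w : ℝ) ≤ ε * y / 200 := by rw [hc1] at hwle; linarith
    have hwy' : (w : ℝ) ≤ y / 200 := by nlinarith
    have hεy : 12 ≤ ε * y := by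
      rw [div_le_iff₀ hε] at g3
      linarith
    have h2 : (Real.exp (y - 18 * w) - 1) * (Real.exp (-w) / 2) ≤
        ((x / K : ℕ) : ℝ) * (Real.exp (-(2 * (12 * (R + 1) * z / (w * Real.log w)))) / 2) := by
      calc (Real.exp (y - 18 * w) - 1) * (Real.exp (-w) / 2) ≤ ((x / K : ℕ) : ℝ) * (Real.exp (-w) / 2) := by gcongr
        _ ≤ _ := by gcongr
    have h3 : (Real.exp (y - 18 * w) - 1) * (Real.exp (-w) / 2) = Real.exp (y - 19 * w) / 2 - Real.exp (-w) / 2 := by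
      have : Real.exp (y - 18 * w) * Real.exp (-w) = Real.exp (y - 19 * w) := by
        rw [← Real.exp_add]; congr 1; ring
      linear_combination (1 / 2) * this
    have h4 : Real.exp (-w) ≤ 1 := Real.exp_le_one_iff.2 (by linarith)
    have h5 : 1 ≤ Real.exp (60 * w) := Real.one_le_exp (by positivity)
    have h8 : (8 : ℝ) ≤ Real.exp 3 := by
      have h := Real.add_one_le_exp (3 / 4 : ℝ)
      have e : Real.exp 3 = Real.exp (3 / 4) ^ 4 := by rw [← Real.exp_nat_mul]; norm_num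
      rw [e]
      calc (8 : ℝ) ≤ (3 / 4 + 1) ^ 4 := by norm_num
        _ ≤ _ := by gcongr
    have h6 : 8 * Real.exp (60 * w) ≤ Real.exp (y - 19 * w) := by
      calc 8 * Real.exp (60 * w) ≤ Real.exp 3 * Real.exp (60 * w) := by gcongr
        _ = Real.exp (3 + 60 * w) := (Real.exp_add _ _).symm
        _ ≤ _ := Real.exp_le_exp.2 (by linarith)
    have h7 : 8 * Real.exp ((1 - ε) * y) ≤ Real.exp (y - 19 * w) := by
      calc 8 * Real.exp ((1 - ε) * y) ≤ Real.exp 3 * Real.exp ((1 - ε) * y) := by gcongr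
        _ = Real.exp (3 + (1 - ε) * y) := (Real.exp_add _ _).symm
        _ ≤ _ := Real.exp_le_exp.2 (by nlinarith)
    linarith
  have hxe : (x : ℝ) ^ (1 - ε) = Real.exp ((1 - ε) * y) := by
    rw [Real.rpow_def_of_pos hxr, hy]
    congr 1
    ring
  rw [hxe]
  refine hmain.trans (hs.trans ?_)
  norm_cast
  apply Finset.card_le_card_of_injOn (fun j => K * j)
  · intro j hj
    rw [Finset.mem_coe, mem_filter, mem_Ioc] at hj
    obtain ⟨⟨hj1, hj2⟩, hj3⟩ := hj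
    rw [Finset.mem_coe, mem_filter, mem_Icc]
    refine ⟨⟨Nat.mul_pos hKpos hj1, ?_⟩, ?_, ?_⟩
    · calc K * j ≤ K * (x / K) := Nat.mul_le_mul_left _ hj2
        _ ≤ x := Nat.mul_div_le _ _
    · exact hRK.trans (Nat.le_mul_of_pos_right _ hj1)
    · intro r hr
      obtain ⟨p1, p2, p3⟩ := no_small hzw2 hK hF hFK hRK hj1 hj3 hr
      refine ⟨p1, p2, fun q hq hqd => ?_⟩
      have h1 := p3 q hq hqd
      have h2 : ((z : ℝ) + 1) ≤ q := by exact_mod_cast h1
      refine lt_of_lt_of_le ?_ h2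
      have h3 : (w : ℝ) ^ 2 < 8 * (R + 1) * (z + 1) := by exact_mod_cast hz2
      have h4 : (c1 * y / 2) ^ 2 ≤ (w : ℝ) ^ 2 := pow_le_pow_left₀ (by positivity) g2 2
      rw [hc, div_mul_eq_mul_div, div_lt_iff₀ (by positivity)]
      nlinarith
  · intro i _ j _ hij
    exact Nat.eq_of_mul_eq_mul_left hKpos hij

open Classical in
/-- **Blocks of terms with rough cofactors.** -/
theorem main (R : ℕ) (ε : ℝ) (hε : 0 < ε) : ∃ c : ℝ, 0 < c ∧ ∃ x₀ : ℕ, ∀ x : ℕ, x₀ ≤ x →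
    (x : ℝ) ^ (1 - ε) ≤ (((Icc 1 x).filter (fun m => Good R (c * Real.log x ^ 2) m)).card : ℝ) := by
  obtain ⟨c, hc, x₀, h⟩ := main_small R (min ε 1) (lt_min hε one_pos) (min_le_right _ _)
  refine ⟨c, hc, max x₀ 1, fun x hx => ?_⟩
  refine le_trans ?_ (h x ((le_max_left _ _).trans hx))
  apply Real.rpow_le_rpow_of_exponent_le
  · exact_mod_cast (le_max_right _ _).trans hx
  · have := min_le_left ε 1
    linarith

end Pool.Agent.X37.PE
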