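import Mathlib

/-!
# The numbers `8 d ^ 2 + 1 = 64 b ^ 2 + 9` with `d ^ 2 - 8 b ^ 2 = 1`
-/

set_option autoImplicit false

namespace Pool.Agent.X37.PE

open Finset

/-- `(d, b)` with `d + b √8 = (3 + √8) ^ m` -/
def sol : ℕ → ℕ × ℕ
  | 0 => (1, 0)
  | m + 1 => (3 * (sol m).1 + 8 * (sol m).2, (sol m).1 + 3 * (sol m).2)

/-- `8 d ^ 2 + 1` -/
def a (m : ℕ) : ℕ := 8 * (sol m).1 ^ 2 + 1

lemma sol_eq (m : ℕ) : (sol m).1 ^ 2 = 8 * (sol m).2 ^ 2 + 1 := by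
  induction m with
  | zero => rfl
  | succ m ih =>
    simp only [sol]
    nlinarith

lemma a_eq (m : ℕ) : a m = 64 * (sol m).2 ^ 2 + 9 := by
  unfold a
  rw [sol_eq]
  ring

lemma a_pos (m : ℕ) : 0 < a m := by unfold a; omega

lemma a_odd (m : ℕ) : ¬ 2 ∣ a m := by unfold a; omega

/-- the unit `3 + 2 √2` -/
def E : ℤ√2 := ⟨3, 2⟩

lemma E_pow (m : ℕ) : E ^ m = ⟨(sol m).1, 2 * (sol m).2⟩ := by
  induction m with
  | zero => rfl
  | succ m ih =>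
    rw [pow_succ, ih]
    unfold E
    ext
    · simp [sol]; ring
    · simp [sol]; ring

/-- the unit `17 + 12 √2` -/
def A : ℤ√2 := ⟨17, 12⟩

/-- its inverse -/
def B : ℤ√2 := ⟨17, -12⟩

lemma AB : A * B = 1 := by
  ext <;> simp [A, B]

lemma A_E : A = E ^ 2 := by
  ext <;> simp [A, E, pow_two]

lemma B_star : B = star A := by
  ext <;> simp [A, B]

lemma A_pow (m : ℕ) : A ^ m = ⟨((sol m).1 : ℤ) ^ 2 + 8 * (sol m).2 ^ 2, 4 * ((sol m).1 * (sol m).2)⟩ := by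
  rw [A_E, ← pow_mul, mul_comm, pow_mul, E_pow]
  ext
  · simp [pow_two]; ring
  · simp [pow_two]; ring

lemma B_pow (m : ℕ) : B ^ m = ⟨((sol m).1 : ℤ) ^ 2 + 8 * (sol m).2 ^ 2, -(4 * ((sol m).1 * (sol m).2))⟩ := by
  rw [B_star, ← star_pow, A_pow]
  rfl

/-- the basic formula -/
lemma a_cast (m : ℕ) : (((a m : ℕ) : ℤ) : ℤ√2) = 2 * (A ^ m + B ^ m) + 5 := by
  have h : ((sol m).1 : ℤ) ^ 2 = 8 * ((sol m).2 : ℤ) ^ 2 + 1 := by exact_mod_cast sol_eq m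
  have e : ((a m : ℕ) : ℤ) = 2 * ((((sol m).1 : ℤ) ^ 2 + 8 * (sol m).2 ^ 2) + (((sol m).1 : ℤ) ^ 2 + 8 * (sol m).2 ^ 2)) + 5 := by
    unfold a
    push_cast
    linarith
  rw [A_pow, B_pow, e]
  generalize ((sol m).1 : ℤ) ^ 2 + 8 * (sol m).2 ^ 2 = X
  generalize 4 * (((sol m).1 : ℤ) * (sol m).2) = Y
  ext
  · simp
  · simp

/-- there is a period -/
lemma exists_period (M : ℕ) (hM : 0 < M) : ∃ F : ℕ, 0 < F ∧ (((M : ℕ) : ℤ) : ℤ√2) ∣ A ^ F - 1 := by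
  have : NeZero M := ⟨hM.ne'⟩
  obtain ⟨i, j, hij, h⟩ := Finite.exists_ne_map_eq_of_infinite
    (fun n : ℕ => (((A ^ n).re : ZMod M), ((A ^ n).im : ZMod M)))
  wlog hlt : i < j generalizing i j
  · exact this j i hij.symm h.symm (by omega)
  refine ⟨j - i, by omega, ?_⟩
  simp only [Prod.mk.injEq] at h
  have h1 : (((M : ℕ) : ℤ) : ℤ√2) ∣ A ^ j - A ^ i := by
    rw [Zsqrtd.intCast_dvd]
    constructor
    · have := (ZMod.intCast_eq_intCast_iff_dvd_sub _ _ _).1 h.1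
      simpa using this
    · have := (ZMod.intCast_eq_intCast_iff_dvd_sub _ _ _).1 h.2
      simpa using this
  have h2 : A ^ (j - i) - 1 = (A ^ j - A ^ i) * B ^ i := by
    have e1 : A ^ i * B ^ i = 1 := by rw [← mul_pow, AB, one_pow]
    have e2 : A ^ j = A ^ (j - i) * A ^ i := by rw [← pow_add]; congr 1; omega
    calc A ^ (j - i) - 1 = A ^ (j - i) * (A ^ i * B ^ i) - (A ^ i * B ^ i) := by rw [e1]; ring
      _ = _ := by rw [e2]; ring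
  rw [h2]
  exact h1.mul_right _

lemma per {M F : ℕ} (h : (((M : ℕ) : ℤ) : ℤ√2) ∣ A ^ F - 1) (k : ℕ) :
    (((M : ℕ) : ℤ) : ℤ√2) ∣ A ^ (F * k) - 1 ∧ (((M : ℕ) : ℤ) : ℤ√2) ∣ B ^ (F * k) - 1 := by
  have h1 : (((M : ℕ) : ℤ) : ℤ√2) ∣ A ^ (F * k) - 1 := by
    rw [pow_mul]
    refine h.trans ?_
    have := sub_dvd_pow_sub_pow (A ^ F) 1 k
    rwa [one_pow] at this
  refine ⟨h1, ?_⟩
  have h2 : B ^ (F * k) - 1 = (A ^ (F * k) - 1) * (- B ^ (F * k)) := by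
    have e1 : A ^ (F * k) * B ^ (F * k) = 1 := by rw [← mul_pow, AB, one_pow]
    linear_combination e1
  rw [h2]
  exact h1.mul_right _

lemma a_add {M F : ℕ} (h : (((M : ℕ) : ℤ) : ℤ√2) ∣ A ^ F - 1) (k r : ℕ) : (M : ℤ) ∣ (a (F * k + r) : ℤ) - a r := by
  obtain ⟨h1, h2⟩ := per h k
  have h3 : (((M : ℕ) : ℤ) : ℤ√2) ∣ (((a (F * k + r) : ℤ) - a r : ℤ) : ℤ√2) := by
    have e : (((a (F * k + r) : ℤ) - a r : ℤ) : ℤ√2) = (A ^ (F * k) - 1) * (2 * A ^ r) + (B ^ (F * k) - 1) * (2 * B ^ r) := by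
      rw [Int.cast_sub, a_cast, a_cast, pow_add, pow_add]
      ring
    rw [e]
    exact dvd_add (h1.mul_right _) (h2.mul_right _)
  exact (Zsqrtd.intCast_dvd_intCast _ _).1 h3

lemma a_sub {M F : ℕ} (h : (((M : ℕ) : ℤ) : ℤ√2) ∣ A ^ F - 1) (k r : ℕ) (hr : r ≤ F * k) :
    (M : ℤ) ∣ (a (F * k - r) : ℤ) - a r := by
  obtain ⟨h1, h2⟩ := per h k
  have h3 : (((M : ℕ) : ℤ) : ℤ√2) ∣ (((a (F * k - r) : ℤ) - a r : ℤ) : ℤ√2) := by
    have e1 : A ^ r * B ^ r = 1 := by rw [← mul_pow, AB, one_pow]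
    have e2 : A ^ (F * k) = A ^ (F * k - r) * A ^ r := by rw [← pow_add]; congr 1; omega
    have e3 : B ^ (F * k) = B ^ (F * k - r) * B ^ r := by rw [← pow_add]; congr 1; omega
    have e : (((a (F * k - r) : ℤ) - a r : ℤ) : ℤ√2) = (A ^ (F * k) - 1) * (2 * B ^ r) + (B ^ (F * k) - 1) * (2 * A ^ r) := by
      rw [Int.cast_sub, a_cast, a_cast, e2, e3]
      linear_combination (-2 * A ^ (F * k - r) - 2 * B ^ (F * k - r)) * e1
    rw [e]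
    exact dvd_add (h1.mul_right _) (h2.mul_right _)
  exact (Zsqrtd.intCast_dvd_intCast _ _).1 h3

/-- a square root of `2` modulo the prime factors -/
lemma exists_sqrt {q m : ℕ} (hq : q.Prime) (hq2 : q ≠ 2) (hq3 : q ≠ 3) (h : q ∣ a m) : ∃ s : ZMod q, s * s = 2 := by
  have : Fact q.Prime := ⟨hq⟩
  have h1 : ((a m : ℕ) : ZMod q) = 0 := (ZMod.natCast_eq_zero_iff _ _).2 h
  have h2 := h1
  rw [a_eq] at h2
  unfold a at h1
  push_cast at h1 h2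
  have h30 : (3 : ZMod q) ≠ 0 := by
    intro h3
    have h3' : ((3 : ℕ) : ZMod q) = 0 := by exact_mod_cast h3
    rw [ZMod.natCast_eq_zero_iff] at h3'
    exact hq3 ((Nat.prime_dvd_prime_iff_eq hq Nat.prime_three).1 h3')
  refine ⟨(8 * ((sol m).2 : ZMod q)) / 3 * (4 * ((sol m).1 : ZMod q)), ?_⟩
  field_simp
  linear_combination (16 * ((sol m).1 : ZMod q) ^ 2) * h2 - 18 * h1
end Pool.Agent.X37.PE
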