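import Pool.Agent.X37.PE.Bad
import Pool.Agent.X9.SQ.JC
import Pool.Agent.X9.SQ.Tail

/-!
# Sieving the large primes in the orders
-/

set_option autoImplicit false

namespace Pool.Agent.X37.PE

open Finset Filter Pool.Agent.X9.SQ

lemma survivors (R w z : ℕ) (hw : 3 ≤ w) (hz : 8 * (R + 1) * z ≤ w ^ 2) : ∃ k : ℕ,
    (k : ℝ) ≤ 8 * (12 * (R + 1) * z / (w * Real.log w)) + 3 ∧ ∀ J : ℕ,
    (J : ℝ) * (Real.exp (-(2 * (12 * (R + 1) * z / (w * Real.log w)))) / 2) - ((z : ℝ) + 1) ^ (2 * k) ≤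
      (((Ioc 0 J).filter (fun j => ∀ l ∈ (Ioc w z).filter Nat.Prime, j % l ∉ bad (Nat.lcmUpto w ^ 3) R z l)).card : ℝ) := by
  classical
  obtain ⟨K, hK⟩ : ∃ K : ℕ, K = Nat.lcmUpto w ^ 3 := ⟨_, rfl⟩
  rw [← hK]
  obtain ⟨P, hP⟩ : ∃ P : Finset ℕ, P = (Ioc w z).filter Nat.Prime := ⟨_, rfl⟩
  rw [← hP]
  have hwr : (3 : ℝ) ≤ w := by exact_mod_cast hw
  have hlog : 0 < Real.log w := Real.log_pos (by linarith)
  obtain ⟨V, hV⟩ : ∃ V : ℝ, V = 12 * (R + 1) * z / (w * Real.log w) := ⟨_, rfl⟩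
  rw [← hV]
  have hV0 : 0 ≤ V := by rw [hV]; positivity
  obtain ⟨k, hk, h⟩ := pure_sieve2 V hV0
  refine ⟨k, hk, fun J => ?_⟩
  have hPp : ∀ l ∈ P, l.Prime ∧ w < l ∧ l ≤ z := by
    intro l hl
    rw [hP, mem_filter, mem_Ioc] at hl
    exact ⟨hl.2, hl.1.1, hl.1.2⟩
  have hlK : ∀ l ∈ P, ¬ l ∣ K := by
    intro l hl hd
    have h1 := hPp l hl
    rw [hK] at hd
    have := prime_dvd_lcmUpto l w h1.1 (h1.1.dvd_of_dvd_pow hd)
    omega
  have hcard : ∀ l ∈ P, ((bad K R z l).card : ℝ) ≤ 4 * (R + 1) * z / l := by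
    intro l hl
    have h1 := bad_card (R := R) (z := z) (hPp l hl).1 (hlK l hl)
    have h2 : ((bad K R z l).card : ℝ) ≤ ((z / l : ℕ) : ℝ) * ((R + 1) * 4) := by exact_mod_cast h1
    have h3 : ((z / l : ℕ) : ℝ) ≤ (z : ℝ) / l := Nat.cast_div_le
    calc ((bad K R z l).card : ℝ) ≤ ((z / l : ℕ) : ℝ) * ((R + 1) * 4) := h2
      _ ≤ (z : ℝ) / l * ((R + 1) * 4) := by gcongr
      _ = _ := by ring
  have hβ : ∀ l ∈ P, 0 ≤ ((bad K R z l).card : ℝ) / l ∧ ((bad K R z l).card : ℝ) / l ≤ 4 * (R + 1) * z / (l : ℝ) ^ 2 := by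
    intro l hl
    have hl0 : (0 : ℝ) < l := by exact_mod_cast (hPp l hl).1.pos
    refine ⟨by positivity, ?_⟩
    rw [div_le_div_iff₀ hl0 (by positivity)]
    have := hcard l hl
    rw [le_div_iff₀ hl0] at this
    nlinarith
  have h1 := h (Ioc 0 J) P (fun l j => j % l ∈ bad K R z l) (fun _ _ => True) (fun l => ((bad K R z l).card : ℝ) / l)
    (fun l hl => by
      refine ⟨(hβ l hl).1, (hβ l hl).2.trans ?_⟩
      have hl0 : (0 : ℝ) < l := by exact_mod_cast (hPp l hl).1.pos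
      rw [div_le_div_iff₀ (by positivity) (by norm_num)]
      have h2 : 8 * (R + 1) * z ≤ l ^ 2 := hz.trans (Nat.pow_le_pow_left (hPp l hl).2.1.le 2)
      have h3 : (8 : ℝ) * (R + 1) * z ≤ (l : ℝ) ^ 2 := by exact_mod_cast h2
      linarith) (by
      have h2 := tail_prime w (by omega) z
      rw [← hP] at h2
      calc ∑ l ∈ P, ((bad K R z l).card : ℝ) / l ≤ ∑ l ∈ P, 4 * (R + 1) * z * (1 / (l : ℝ) ^ 2) := by
            apply Finset.sum_le_sum
            intro l hl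
            refine (hβ l hl).2.trans (le_of_eq ?_)
            ring
        _ = 4 * (R + 1) * z * ∑ l ∈ P, 1 / (l : ℝ) ^ 2 := by rw [Finset.mul_sum]
        _ ≤ 4 * (R + 1) * z * (3 / (w * Real.log w)) := by gcongr
        _ = V := by rw [hV]; ring) (((z : ℝ) + 1) ^ k) (by
      intro T hT hTk
      have h2 := ap_count_T J T (fun l hl => (hPp l (hT hl)).1) (fun l => bad K R z l) (fun l _ i hi => bad_lt hi)
      have h3 : (((Ioc 0 J).filter (fun X => ∀ l ∈ T, (fun _ _ => True : ℕ → ℕ → Prop) l X)).card : ℝ) = J := by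
        rw [Finset.filter_true_of_mem (fun _ _ _ _ => trivial)]
        simp
      have h4 : ∏ l ∈ T, ((bad K R z l).card : ℝ) ≤ ((z : ℝ) + 1) ^ k := by
        calc ∏ l ∈ T, ((bad K R z l).card : ℝ) ≤ ∏ _l ∈ T, ((z : ℝ) + 1) := by
              apply Finset.prod_le_prod (fun l _ => by positivity)
              intro l hl
              have h5 : (bad K R z l).card ≤ l := by
                have : bad K R z l ⊆ range l := fun i hi => mem_range.2 (bad_lt hi)
                have := card_le_card this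
                rwa [card_range] at this
              have h6 := (hPp l (hT hl)).2.2
              have h7 : ((bad K R z l).card : ℝ) ≤ z := by exact_mod_cast h5.trans h6
              linarith
          _ = ((z : ℝ) + 1) ^ T.card := by rw [Finset.prod_const]
          _ ≤ _ := by
            apply pow_le_pow_right₀ _ hTk
            have : (0 : ℝ) ≤ z := Nat.cast_nonneg z
            linarith
      refine le_trans (le_of_eq ?_) (h2.trans h4)
      rw [← h3]
      congr!)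
  have h5 : (P.card : ℝ) + 1 ≤ (z : ℝ) + 1 := by
    have h6 : P ⊆ Icc 1 z := by
      intro l hl
      have := hPp l hl
      rw [mem_Icc]
      omega
    have h7 := card_le_card h6
    rw [Nat.card_Icc, Nat.add_sub_cancel] at h7
    have : (P.card : ℝ) ≤ z := by exact_mod_cast h7
    linarith
  have h6 : ((P.card : ℝ) + 1) ^ k * ((z : ℝ) + 1) ^ k ≤ ((z : ℝ) + 1) ^ (2 * k) := by
    calc ((P.card : ℝ) + 1) ^ k * ((z : ℝ) + 1) ^ k ≤ ((z : ℝ) + 1) ^ k * ((z : ℝ) + 1) ^ k := by gcongr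
      _ = _ := by rw [← pow_add]; congr 1; ring
  have h7 : ((Ioc 0 J).card : ℝ) = J := by simp
  rw [h7] at h1
  have h8 : ((Ioc 0 J).filter (fun X => ∀ l ∈ P, ¬ (fun l j => j % l ∈ bad K R z l : ℕ → ℕ → Prop) l X)).card =
    ((Ioc 0 J).filter (fun j => ∀ l ∈ P, j % l ∉ bad K R z l)).card := rfl
  refine le_trans ?_ (le_trans h1 (le_of_eq ?_))
  · linarith
  · congr!

end Pool.Agent.X37.PE
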